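import Pool.Agent.helper12.TZ.Spec

set_option autoImplicit false

namespace Pool.Agent.TZ

open Pool.Agent.helper58.DC Pool.Agent.DI Pool.Agent.GR Pool.Agent.OB

lemma TXS_finsum {α : Type} [Fintype α] {M : Type} [AddCommMonoid M] (s : Set α)
    [DecidablePred (· ∈ s)] (f : α → M) :
    ∑ᶠ x ∈ s, f x = ∑ x, if x ∈ s then f x else 0 := by
  classical
  rw [finsum_mem_eq_finite_toFinset_sum f (Set.toFinite s), ← Finset.sum_filter]
  refine Finset.sum_congr ?_ (fun _ _ => rfl)
  ext x
  constructor
  · intro h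
    exact Finset.mem_filter.2 ⟨Finset.mem_univ _, (Set.Finite.mem_toFinset _).1 h⟩
  · intro h
    exact (Set.Finite.mem_toFinset _).2 (Finset.mem_filter.1 h).2

theorem TXS (hCHF : CHF_stmt) : TXS_stmt := by
  classical
  intro G _ _ p _ g D hD hg ζ
  let _ := Fintype.ofFinite G
  let _ : Fintype (Subgroup G) := Fintype.ofFinite _
  let _ : Fintype (Finset (Subgroup G)) := Fintype.ofFinite _
  have key : ∀ t y : G, ∑ C : Finset (Subgroup G), (if (t, y, C) ∈ XX p g D then
      wt g ζ (t, y, C) else 0) =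
      ζ (t * y * t⁻¹ * y⁻¹ * g)⁻¹ * (W p (Subgroup.closure {t, y, g}) : ℂ) := by
    intro t y
    have hRle : (D ⊓ Subgroup.centralizer {t} ⊓ Subgroup.centralizer {y} : Subgroup G) ≤ D :=
      inf_le_left.trans inf_le_left
    have h1 := hCHF G p (Subgroup.closure {t, y, g})
      (D ⊓ Subgroup.centralizer {t} ⊓ Subgroup.centralizer {y}) (hD.to_le hRle) (by
        intro r hr
        have h2 : Subgroup.closure {t, y, g} ≤ Subgroup.centralizer {r} := by
          rw [Subgroup.closure_le]
          intro z hz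
          rw [SetLike.mem_coe, Subgroup.mem_centralizer_singleton_iff]
          rcases hz with rfl | rfl | rfl
          · exact (Subgroup.mem_centralizer_singleton_iff.1 hr.1.2).symm
          · exact (Subgroup.mem_centralizer_singleton_iff.1 hr.2).symm
          · exact (hg r hr.1.1).symm
        intro h hh
        exact (Subgroup.mem_centralizer_singleton_iff.1 (h2 hh)).symm)
    rw [TXS_finsum] at h1
    have h3 : ∀ C : Finset (Subgroup G), (t, y, C) ∈ XX p g D ↔
        C ∈ {C : Finset (Subgroup G) | PCh p ⊤ ⊥ C ∧ Subgroup.closure {t, y, g} ≤ nrm C ∧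
          ∀ d ∈ (D ⊓ Subgroup.centralizer {t} ⊓ Subgroup.centralizer {y} : Subgroup G),
            d ∈ nrm C → d = 1} := by
      intro C
      have e1 : Subgroup.closure {t, y, g} ≤ nrm C ↔ t ∈ nrm C ∧ y ∈ nrm C ∧ g ∈ nrm C := by
        rw [Subgroup.closure_le]
        constructor
        · intro h
          exact ⟨h (by simp), h (by simp), h (by simp)⟩
        · rintro ⟨h4, h5, h6⟩ z hz
          rcases hz with rfl | rfl | rfl
          · exact h4
          · exact h5
          · exact h6
      have e2 : Fr y (HX D (t, y, C)) ↔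
          ∀ d ∈ (D ⊓ Subgroup.centralizer {t} ⊓ Subgroup.centralizer {y} : Subgroup G),
            d ∈ nrm C → d = 1 := by
        constructor
        · intro h d hd hdC
          exact h d ⟨hd.1, hdC⟩ (Subgroup.mem_centralizer_singleton_iff.1 hd.2)
        · intro h d hd hdy
          exact h d ⟨hd.1, Subgroup.mem_centralizer_singleton_iff.2 hdy⟩ hd.2
      constructor
      · rintro ⟨h4, h5, h6, h7, h8⟩
        exact ⟨h4, e1.2 ⟨h5, h6, h7⟩, e2.1 h8⟩
      · rintro ⟨h4, h5, h6⟩
        obtain ⟨h7, h8, h9⟩ := e1.1 h5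
        exact ⟨h4, h7, h8, h9, e2.2 h6⟩
    have h4 : ∑ C : Finset (Subgroup G), (if (t, y, C) ∈ XX p g D then
        wt g ζ (t, y, C) else 0) =
        ζ (t * y * t⁻¹ * y⁻¹ * g)⁻¹ * ((∑ C : Finset (Subgroup G),
          (if C ∈ {C : Finset (Subgroup G) | PCh p ⊤ ⊥ C ∧ Subgroup.closure {t, y, g} ≤ nrm C ∧
          ∀ d ∈ (D ⊓ Subgroup.centralizer {t} ⊓ Subgroup.centralizer {y} : Subgroup G),
            d ∈ nrm C → d = 1} then (-1 : ℤ) ^ (C.card + 1) else 0) : ℤ) : ℂ) := by
      rw [Int.cast_sum, Finset.mul_sum]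
      refine Finset.sum_congr rfl fun C _ => ?_
      by_cases hC : (t, y, C) ∈ XX p g D
      · rw [if_pos hC, if_pos ((h3 C).1 hC)]
        unfold wt
        push_cast
        ring
      · rw [if_neg hC, if_neg (fun h => hC ((h3 C).2 h))]
        simp
    rw [h4, h1]
  rw [TXS_finsum, finsum_eq_sum_of_fintype, Fintype.sum_prod_type, Fintype.sum_prod_type]
  refine Finset.sum_congr rfl fun t _ => ?_
  rw [Fintype.sum_prod_type]
  refine Finset.sum_congr rfl fun y _ => ?_
  exact key t y

end Pool.Agent.TZ
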