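import Pool.Agent.helper12.TZ.Spec

set_option autoImplicit false

namespace Pool.Agent.TZ

open Pool.Agent.helper58.DC Pool.Agent.DI Pool.Agent.GR Pool.Agent.OB

lemma UAB_mem {G : Type} [Group G] (s y : G) (H U : Subgroup G) (u : G) :
    u ∈ nx s y H U ↔ u ∈ H ∧ (∀ v ∈ U, u * v = v * u) ∧ u * s = s * u ∧
      y⁻¹ * u * y * u⁻¹ ∈ U ⊔ Subgroup.zpowers s := Iff.rfl

lemma UAB_le {G : Type} [Group G] (s y : G) (H : Subgroup G) (i : ℕ) : Ul s y H i ≤ H := by
  cases i with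
  | zero => exact bot_le
  | succ i =>
    intro u hu
    exact ((UAB_mem s y H (Ul s y H i) u).1 hu).1

theorem UAB : UAB_stmt := by
  intro G _ s y H hC hF i
  induction i with
  | zero =>
    refine ⟨?_, bot_le⟩
    intro u hu v hv
    have h1 : u = 1 := Subgroup.mem_bot.1 hu
    have h2 : v = 1 := Subgroup.mem_bot.1 hv
    rw [h1, h2]
  | succ i ih =>
    obtain ⟨ih1, ih2⟩ := ih
    have hs : ∀ v ∈ Ul s y H i, v * s = s * v := fun v hv => hC v (UAB_le s y H i hv)
    have hB : ∀ b ∈ Ul s y H i ⊔ Subgroup.zpowers s, ∀ c ∈ Ul s y H i ⊔ Subgroup.zpowers s,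
        b * c = c * b := by
      intro b hb
      refine nx_comm (fun v hv => ?_) ?_
      · exact (nx_comm (fun w hw => ih1 v hv w hw) (hs v hv) b hb).symm
      · exact (nx_comm (u := s) (fun w hw => (hs w hw).symm) rfl b hb).symm
    have hab : ∀ u ∈ Ul s y H (i + 1), ∀ v ∈ Ul s y H (i + 1), u * v = v * u := by
      intro u hu v hv
      obtain ⟨hu1, hu2, hu3, hu4⟩ := (UAB_mem s y H (Ul s y H i) u).1 hu
      obtain ⟨hv1, hv2, hv3, hv4⟩ := (UAB_mem s y H (Ul s y H i) v).1 hv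
      obtain ⟨b, hb⟩ : ∃ b, b = y⁻¹ * u * y * u⁻¹ := ⟨_, rfl⟩
      obtain ⟨c, hc⟩ : ∃ c, c = y⁻¹ * v * y * v⁻¹ := ⟨_, rfl⟩
      rw [← hb] at hu4
      rw [← hc] at hv4
      have h1 : u * c = c * u := nx_comm hu2 hu3 c hv4
      have h2 : v * b = b * v := nx_comm hv2 hv3 b hu4
      have h3 : b * c = c * b := hB b hu4 c hv4
      have hX : y⁻¹ * u * y = b * u := by rw [hb]; group
      have hZ : y⁻¹ * v * y = c * v := by rw [hc]; group
      have hXZ : (b * u) * (c * v) = (b * c) * (u * v) := by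
        calc (b * u) * (c * v) = b * (u * c) * v := by group
          _ = b * (c * u) * v := by rw [h1]
          _ = _ := by group
      have hZX : (c * v) * (b * u) = (b * c) * (v * u) := by
        calc (c * v) * (b * u) = c * (v * b) * u := by group
          _ = c * (b * v) * u := by rw [h2]
          _ = (c * b) * (v * u) := by group
          _ = _ := by rw [h3]
      have h4 : y⁻¹ * ((v * u)⁻¹ * (u * v)) * y = (v * u)⁻¹ * (u * v) := by
        calc y⁻¹ * ((v * u)⁻¹ * (u * v)) * y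
            = ((y⁻¹ * v * y) * (y⁻¹ * u * y))⁻¹ * ((y⁻¹ * u * y) * (y⁻¹ * v * y)) := by group
          _ = ((b * c) * (v * u))⁻¹ * ((b * c) * (u * v)) := by rw [hX, hZ, hXZ, hZX]
          _ = _ := by group
      have h5 : (v * u)⁻¹ * (u * v) * y = y * ((v * u)⁻¹ * (u * v)) := by
        calc (v * u)⁻¹ * (u * v) * y = y * (y⁻¹ * ((v * u)⁻¹ * (u * v)) * y) := by group
          _ = _ := by rw [h4]
      have h6 := hF _ (H.mul_mem (H.inv_mem (H.mul_mem hv1 hu1)) (H.mul_mem hu1 hv1)) h5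
      exact (inv_mul_eq_one.1 h6).symm
    refine ⟨hab, ?_⟩
    intro u hu
    obtain ⟨hu1, hu2, hu3, hu4⟩ := (UAB_mem s y H (Ul s y H i) u).1 hu
    refine (UAB_mem s y H (Ul s y H (i + 1)) u).2 ⟨hu1, fun v hv => hab u hu v hv, hu3, ?_⟩
    exact (sup_le_sup_right ih2 _) hu4

end Pool.Agent.TZ
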